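import Pool.Agent.P8H82.WS.Stm2

/-!
# WS/ORD: a semistable curve with a point of order two is ordinary or multiplicative above two
-/

set_option autoImplicit false

namespace Pool.Agent.P8H71.WS.ORD

open NumberField IsDedekindDomain WithZero
open Pool.Agent.P8H82.WS

variable {K : Type} [Field K] [NumberField K]

/-- the value of `2` -/
theorem val_two (v : HeightOneSpectrum (𝓞 K)) (hv : v.asIdeal = Ideal.span {2}) :
    v.valuation K 2 = exp (-1 : ℤ) := by
  have h := v.intValuation_singleton (r := (2 : 𝓞 K)) two_ne_zero hv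
  have e : (2 : K) = algebraMap (𝓞 K) K 2 := (map_ofNat (algebraMap (𝓞 K) K) 2).symm
  rw [e, v.valuation_of_algebraMap, h]

/-- discreteness -/
theorem le_of_lt_one (γ : ℤᵐ⁰) (h : γ < 1) : γ ≤ exp (-1 : ℤ) := by
  by_cases h0 : γ = 0
  · rw [h0]; exact zero_le
  · rw [← exp_log h0, ← exp_zero, exp_lt_exp] at h
    rw [← exp_log h0, exp_le_exp]
    omega

/-- the cubic of the points of order two under a change of variables -/
theorem root_change (E : WeierstrassCurve K) (C : WeierstrassCurve.VariableChange K) (x : K)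
    (hx : 4 * x ^ 3 + E.b₂ * x ^ 2 + 2 * E.b₄ * x + E.b₆ = 0) :
    ∃ y : K, 4 * y ^ 3 + (C • E).b₂ * y ^ 2 + 2 * (C • E).b₄ * y + (C • E).b₆ = 0 := by
  refine ⟨(C.u⁻¹ : Kˣ) ^ 2 * (x - C.r), ?_⟩
  rw [WeierstrassCurve.variableChange_b₂, WeierstrassCurve.variableChange_b₄,
    WeierstrassCurve.variableChange_b₆]
  have : 4 * (((C.u⁻¹ : Kˣ) : K) ^ 2 * (x - C.r)) ^ 3 +
      ((C.u⁻¹ : Kˣ) : K) ^ 2 * (E.b₂ + 12 * C.r) * (((C.u⁻¹ : Kˣ) : K) ^ 2 * (x - C.r)) ^ 2 +
      2 * (((C.u⁻¹ : Kˣ) : K) ^ 4 * (E.b₄ + C.r * E.b₂ + 6 * C.r ^ 2)) *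
        (((C.u⁻¹ : Kˣ) : K) ^ 2 * (x - C.r)) +
      ((C.u⁻¹ : Kˣ) : K) ^ 6 * (E.b₆ + 2 * C.r * E.b₄ + C.r ^ 2 * E.b₂ + 4 * C.r ^ 3) =
      ((C.u⁻¹ : Kˣ) : K) ^ 6 * (4 * x ^ 3 + E.b₂ * x ^ 2 + 2 * E.b₄ * x + E.b₆) := by ring
  rw [this, hx, mul_zero]

section vals

variable {v : HeightOneSpectrum (𝓞 K)}

theorem add_lt_one {a b : K} (ha : v.valuation K a < 1) (hb : v.valuation K b < 1) :
    v.valuation K (a + b) < 1 := (v.valuation K).map_add_lt ha hb

theorem add_le_one {a b : K} (ha : v.valuation K a ≤ 1) (hb : v.valuation K b ≤ 1) :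
    v.valuation K (a + b) ≤ 1 := (v.valuation K).map_add_le ha hb

theorem sub_le_one {a b : K} (ha : v.valuation K a ≤ 1) (hb : v.valuation K b ≤ 1) :
    v.valuation K (a - b) ≤ 1 := (v.valuation K).map_sub_le ha hb

theorem sub_lt_one {a b : K} (ha : v.valuation K a < 1) (hb : v.valuation K b < 1) :
    v.valuation K (a - b) < 1 := by
  rw [sub_eq_add_neg]
  exact add_lt_one ha (by rwa [Valuation.map_neg])

theorem vmul_le {a b : K} (ha : v.valuation K a ≤ 1) (hb : v.valuation K b ≤ 1) :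
    v.valuation K (a * b) ≤ 1 := by
  rw [map_mul]; exact _root_.mul_le_one' ha hb

theorem mul_lt_one_left {a b : K} (ha : v.valuation K a < 1) (hb : v.valuation K b ≤ 1) :
    v.valuation K (a * b) < 1 := by
  rw [map_mul]; exact mul_lt_one_of_lt_of_le ha hb

theorem mul_lt_one_right {a b : K} (ha : v.valuation K a ≤ 1) (hb : v.valuation K b < 1) :
    v.valuation K (a * b) < 1 := by
  rw [mul_comm]; exact mul_lt_one_left hb ha

theorem pow_le_one'' {a : K} (ha : v.valuation K a ≤ 1) (n : ℕ) :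
    v.valuation K (a ^ n) ≤ 1 := by
  rw [map_pow]; exact pow_le_one' ha n

theorem nat_le_one (n : ℕ) : v.valuation K (n : K) ≤ 1 := by
  have := v.valuation_le_one (K := K) (n : 𝓞 K)
  simpa using this

end vals

theorem ord : S_ORD := by
  intro K _ _ v hv E _ hroot hsemi
  obtain ⟨C, hint, hC⟩ := hsemi
  rcases hC with hC | hC
  swap
  · exact ⟨C, hint, hC⟩
  refine ⟨C, hint, ?_⟩
  obtain ⟨x0, hx0⟩ := hroot
  obtain ⟨x, hx⟩ := root_change E C x0 hx0
  generalize C • E = W at *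
  obtain ⟨h1, h2, h3, h4, h6⟩ := hint
  set w := v.valuation K with hw
  have h2e : w 2 = exp (-1 : ℤ) := val_two v hv
  have h2lt : w 2 < 1 := by rw [h2e, ← exp_zero, exp_lt_exp]; omega
  have n2 : w 2 ≤ 1 := h2lt.le
  have n4 : w 4 < 1 := by
    rw [show (4 : K) = 2 * 2 by norm_num]; exact mul_lt_one_left h2lt n2
  have hb2 : w W.b₂ ≤ 1 := by
    unfold WeierstrassCurve.b₂
    exact add_le_one (pow_le_one'' h1 2) (vmul_le n4.le h2)
  have hb4 : w W.b₄ ≤ 1 := by
    unfold WeierstrassCurve.b₄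
    exact add_le_one (vmul_le n2 h4) (vmul_le h1 h3)
  have hb6 : w W.b₆ ≤ 1 := by
    unfold WeierstrassCurve.b₆
    exact add_le_one (pow_le_one'' h3 2) (vmul_le n4.le h6)
  have hb8 : w W.b₈ ≤ 1 := by
    unfold WeierstrassCurve.b₈
    exact sub_le_one (add_le_one (sub_le_one (add_le_one (vmul_le (pow_le_one'' h1 2) h6)
      (vmul_le (vmul_le n4.le h2) h6)) (vmul_le (vmul_le h1 h3) h4))
      (vmul_le h2 (pow_le_one'' h3 2))) (pow_le_one'' h4 2)
  have hc4 : w W.c₄ ≤ 1 := by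
    unfold WeierstrassCurve.c₄
    exact sub_le_one (pow_le_one'' hb2 2) (vmul_le (by exact_mod_cast nat_le_one 24) hb4)
  by_contra hne
  have hc4' : w W.c₄ < 1 := lt_of_le_of_ne hc4 hne
  -- `b₂` is not a unit
  have n24 : w (24 : K) < 1 := by
    rw [show (24 : K) = 2 * 12 by norm_num]
    exact mul_lt_one_left h2lt (by exact_mod_cast nat_le_one 12)
  have hb2' : w W.b₂ < 1 := by
    have : w (W.b₂ ^ 2) < 1 := by
      have e : W.b₂ ^ 2 = W.c₄ + 24 * W.b₄ := by unfold WeierstrassCurve.c₄; ring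
      rw [e]
      exact add_lt_one hc4' (mul_lt_one_left n24 hb4)
    rw [map_pow] at this
    by_contra h
    have h' : w W.b₂ = 1 := le_antisymm hb2 (not_lt.1 h)
    rw [h'] at this
    simp at this
  have ha1' : w W.a₁ < 1 := by
    have : w (W.a₁ ^ 2) < 1 := by
      have e : W.a₁ ^ 2 = W.b₂ - 4 * W.a₂ := by unfold WeierstrassCurve.b₂; ring
      rw [e]
      exact sub_lt_one hb2' (mul_lt_one_left n4 h2)
    rw [map_pow] at this
    by_contra h
    have h' : w W.a₁ = 1 := le_antisymm h1 (not_lt.1 h)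
    rw [h'] at this
    simp at this
  have ha1 : w W.a₁ ≤ w 2 := by rw [h2e]; exact le_of_lt_one _ ha1'
  have hb2'' : w W.b₂ ≤ w 4 := by
    unfold WeierstrassCurve.b₂
    refine (w).map_add_le ?_ ?_
    · rw [map_pow, show (4 : K) = 2 ^ 2 by norm_num, map_pow]
      exact pow_le_pow_left' ha1 2
    · rw [map_mul]
      exact mul_le_of_le_one_right' h2
  have hb4' : w W.b₄ ≤ w 2 := by
    unfold WeierstrassCurve.b₄
    refine (w).map_add_le ?_ ?_
    · rw [map_mul]
      exact mul_le_of_le_one_right' h4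
    · rw [map_mul]
      exact (mul_le_of_le_one_right' h3).trans ha1
  have hb4lt : w W.b₄ < 1 := hb4'.trans_lt h2lt
  -- `b₆` is a unit
  have hb6' : w W.b₆ = 1 := by
    refine le_antisymm hb6 ?_
    by_contra h
    rw [not_le] at h
    have : w W.Δ < 1 := by
      unfold WeierstrassCurve.Δ
      refine add_lt_one (sub_lt_one (sub_lt_one ?_ ?_) ?_) ?_
      · refine mul_lt_one_left ?_ hb8
        rw [Valuation.map_neg, map_pow]
        exact pow_lt_one' hb2' two_ne_zero
      · refine mul_lt_one_right (by exact_mod_cast nat_le_one 8) ?_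
        rw [map_pow]
        exact pow_lt_one' hb4lt three_ne_zero
      · refine mul_lt_one_right (by exact_mod_cast nat_le_one 27) ?_
        rw [map_pow]
        exact pow_lt_one' h two_ne_zero
      · exact mul_lt_one_right (vmul_le (vmul_le (by exact_mod_cast nat_le_one 9) hb2) hb4) h
    rw [hC] at this
    exact lt_irrefl _ this
  have hx' : W.b₆ = -(4 * x ^ 3 + W.b₂ * x ^ 2 + 2 * W.b₄ * x) := by linear_combination hx
  rcases le_or_gt (w x) 1 with hx1 | hx1
  · have : w W.b₆ < 1 := by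
      rw [hx', Valuation.map_neg]
      refine add_lt_one (add_lt_one (mul_lt_one_left n4 (pow_le_one'' hx1 3))
        (mul_lt_one_left hb2' (pow_le_one'' hx1 2))) (mul_lt_one_left (mul_lt_one_left h2lt hb4) hx1)
    rw [hb6'] at this
    exact lt_irrefl _ this
  · have hx0' : w x ≠ 0 := fun h => by rw [h] at hx1; exact absurd hx1 (by simp)
    obtain ⟨k, hk⟩ : ∃ k : ℤ, w x = exp k := ⟨_, (exp_log hx0').symm⟩
    have hk0 : 0 < k := by
      rw [hk, ← exp_zero, exp_lt_exp] at hx1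
      exact hx1
    have e4 : w 4 = exp (-2 : ℤ) := by
      rw [show (4 : K) = 2 * 2 by norm_num, map_mul, h2e, ← exp_add]; rfl
    have t1 : w (4 * x ^ 3) = exp (-2 + 3 * k) := by
      rw [map_mul, map_pow, e4, hk, ← exp_nsmul, ← exp_add]; simp
    have t2 : w (W.b₂ * x ^ 2) < w (4 * x ^ 3) := by
      rw [t1, map_mul, map_pow, hk, ← exp_nsmul]
      refine (mul_le_mul_left hb2'' _).trans_lt ?_
      rw [e4, ← exp_add, exp_lt_exp]
      simp
      omega
    have t3 : w (2 * W.b₄ * x) < w (4 * x ^ 3) := by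
      rw [t1, map_mul, map_mul, hk]
      refine (mul_le_mul_left (mul_le_mul_right hb4' _) _).trans_lt ?_
      rw [h2e, ← exp_add, ← exp_add, exp_lt_exp]
      omega
    have t4 : w W.b₆ = w (4 * x ^ 3) := by
      rw [hx', Valuation.map_neg, add_assoc]
      exact Valuation.map_add_eq_of_lt_left _ ((w).map_add_lt t2 t3)
    rw [hb6', t1, ← exp_zero, exp_inj] at t4
    omega

end Pool.Agent.P8H71.WS.ORD
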