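import Pool.Agent.P8H71.WS.Uni
import Pool.Agent.P8H71.WS.Ord
import Pool.Agent.P8H20.WS.Lam

/-!
# WS/GLO: a twist class which is locally a square is a square
-/

set_option autoImplicit false

namespace Pool.Agent.P8H71.WS.GLO

open NumberField IsDedekindDomain WithZero
open Pool.Agent.P8H82.WS
open Pool.Agent.P8H82.JG (Gold Triple)
open Pool.Agent.P8H71.WS.ORD Pool.Agent.P8H71.WS.UNI
open Pool.Agent.P8H52.JG

variable {K : Type} [Field K] [NumberField K]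

/-- an element with even values is a unit times a square -/
theorem sq_of_even [IsPrincipalIdealRing (𝓞 K)] (c : 𝓞 K) (hc : c ≠ 0)
    (h : ∀ v : HeightOneSpectrum (𝓞 K), ∃ x : K, x ≠ 0 ∧ v.valuation K (x ^ 2 * c) = 1) :
    ∃ (u : (𝓞 K)ˣ) (z : 𝓞 K), c = u * z ^ 2 := by
  classical
  have hI : (Ideal.span {c} : Ideal (𝓞 K)) ≠ 0 := by
    rw [Ne, Ideal.zero_eq_bot, Ideal.span_singleton_eq_bot]; exact hc
  have hpow : ∃ b : Associates (Ideal (𝓞 K)), Associates.mk (Ideal.span {c}) = b ^ 2 := by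
    apply Associates.is_pow_of_dvd_count (Associates.mk_ne_zero.2 hI)
    intro p hp
    obtain ⟨P, rfl⟩ := Associates.mk_surjective p
    rw [Associates.irreducible_mk] at hp
    have hP : Prime P := hp.prime
    let v : HeightOneSpectrum (𝓞 K) := ⟨P, Ideal.isPrime_of_prime hP, hP.ne_zero⟩
    obtain ⟨x, hx0, hx⟩ := h v
    have hval := v.intValuation_if_neg hc
    rw [← v.valuation_of_algebraMap (K := K)] at hval
    have hxv : v.valuation K x ≠ 0 := (Valuation.ne_zero_iff _).2 hx0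
    rw [map_mul, map_pow] at hx
    have hcc : v.valuation K (c : K) = v.valuation K (algebraMap (𝓞 K) K c) := rfl
    rw [hcc, hval, ← exp_log hxv, ← exp_nsmul, ← exp_add, ← exp_zero, exp_inj] at hx
    have : ((Associates.mk P).count (Associates.mk (Ideal.span {c} : Ideal (𝓞 K))).factors : ℤ) =
        2 * log (v.valuation K x) := by
      have hx' := hx
      simp only [nsmul_eq_mul, Nat.cast_ofNat] at hx'
      have e : v.asIdeal = P := rfl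
      rw [e] at hx'
      linarith
    have h2 : (2 : ℤ) ∣ ((Associates.mk P).count
        (Associates.mk (Ideal.span {c} : Ideal (𝓞 K))).factors : ℤ) := ⟨_, this⟩
    exact_mod_cast h2
  obtain ⟨b, hb⟩ := hpow
  obtain ⟨J, rfl⟩ := Associates.mk_surjective b
  rw [← Associates.mk_pow, Associates.mk_eq_mk_iff_associated, associated_iff_eq] at hb
  obtain ⟨z, hz⟩ := (inferInstance : J.IsPrincipal)
  rw [hz, Ideal.submodule_span_eq, Ideal.span_singleton_pow, Ideal.span_singleton_eq_span_singleton] at hb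
  obtain ⟨u, hu⟩ := hb.symm
  exact ⟨u, z, by rw [← hu]; ring⟩

/-- the units -/
theorem unit_rep (σ τ : K →+* ℝ) (hG : Gold K σ τ) (φ : 𝓞 K) (h : φ ^ 2 = φ + 1)
    (h2 : σ φ = (1 + √5) / 2) (h3 : τ φ = (1 - √5) / 2) (v : (𝓞 K)ˣ) :
    ∃ k : ℤ, v = phiU φ h ^ k ∨ v = -phiU φ h ^ k := by
  have h5 := sqrt5_sq
  have h5p := sqrt5_pos
  have h52 := two_lt
  have hY : (1 : ℝ) < (3 + √5) / 2 := by linarith
  have hε1 : |σ ((phiU φ h : 𝓞 K) : K)| = (1 + √5) / 2 := by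
    show |σ (φ : K)| = _
    rw [h2, abs_of_pos]; linarith
  have hε2 : |τ ((phiU φ h : 𝓞 K) : K)| = (√5 - 1) / 2 := by
    show |τ (φ : K)| = _
    rw [h3, abs_of_neg]
    · ring
    · linarith
  have hrt : rt σ τ ((phiU φ h : 𝓞 K) : K) = (3 + √5) / 2 := by
    unfold rt
    rw [hε1, hε2, div_eq_iff (by linarith)]
    nlinarith
  have hv0 : ((v : 𝓞 K) : K) ≠ 0 := coe_ne v.ne_zero
  have hr0 : 0 < rt σ τ ((v : 𝓞 K) : K) := div_pos (emb_pos σ hv0) (emb_pos τ hv0)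
  obtain ⟨n, hn1, hn2⟩ := exists_mem_Ico_zpow hr0 hY
  have hYn : 0 < ((3 + √5) / 2) ^ n := zpow_pos (by linarith) n
  have hval : (((v * phiU φ h ^ (-n) : (𝓞 K)ˣ) : 𝓞 K) : K) =
      ((v : 𝓞 K) : K) * ((phiU φ h : 𝓞 K) : K) ^ (-n) := by
    rw [Units.val_mul, val_mul, unit_coe_zpow]
  have hne : (((v * phiU φ h ^ (-n) : (𝓞 K)ˣ) : 𝓞 K) : K) ≠ 0 := coe_ne (Units.ne_zero _)
  have hcone := (cone_iff (σ := σ) (τ := τ) hne).2 (by
    rw [hval, rt_mul, rt_zpow, hrt, zpow_neg]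
    constructor
    · rw [← div_eq_mul_inv, le_div_iff₀ hYn, one_mul]
      exact hn1
    · rw [← div_eq_mul_inv, div_lt_iff₀ hYn]
      rw [zpow_add₀ (by linarith), zpow_one] at hn2
      linarith)
  have hc := (cone K σ τ hG).2 1 (v * phiU φ h ^ (-n)) one_ne_zero (by simp) (by simp; linarith)
    (by rw [mul_one]; exact hcone.1) (by rw [mul_one]; exact hcone.2)
  refine ⟨n, ?_⟩
  rcases hc with hc | hc
  · left
    rw [zpow_neg, mul_inv_eq_one] at hc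
    exact hc
  · right
    rw [zpow_neg, mul_inv_eq_iff_eq_mul] at hc
    rw [hc, neg_one_mul]

/-- squares modulo `4` -/
theorem zmod_neg : ∀ m n p q : ZMod 4, -(m ^ 2 + n ^ 2) - (p ^ 2 + q ^ 2) = 0 →
    -(2 * m * n + n ^ 2) - (2 * p * q + q ^ 2) = 0 → 2 * m = 0 ∧ 2 * n = 0 ∧ 2 * p = 0 ∧ 2 * q = 0 := by
  decide

theorem zmod_phi : ∀ m n p q : ZMod 4, (2 * m * n + n ^ 2) - (p ^ 2 + q ^ 2) = 0 →
    (m ^ 2 + n ^ 2 + (2 * m * n + n ^ 2)) - (2 * p * q + q ^ 2) = 0 →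
    2 * m = 0 ∧ 2 * n = 0 ∧ 2 * p = 0 ∧ 2 * q = 0 := by
  decide

theorem zmod_nphi : ∀ m n p q : ZMod 4, -(2 * m * n + n ^ 2) - (p ^ 2 + q ^ 2) = 0 →
    -(m ^ 2 + n ^ 2 + (2 * m * n + n ^ 2)) - (2 * p * q + q ^ 2) = 0 →
    2 * m = 0 ∧ 2 * n = 0 ∧ 2 * p = 0 ∧ 2 * q = 0 := by
  decide

theorem even_of_zmod (m : ℤ) (h : (2 : ZMod 4) * (m : ZMod 4) = 0) : ∃ k : ℤ, m = 2 * k := by
  have h1 : ((2 * m : ℤ) : ZMod 4) = 0 := by push_cast; exact h
  rw [ZMod.intCast_zmod_eq_zero_iff_dvd] at h1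
  obtain ⟨k, hk⟩ := h1
  exact ⟨k, by push_cast at hk; omega⟩

theorem zmod_zero_of (x y : ℤ) (h : x = 4 * y) : ((x : ℤ) : ZMod 4) = 0 := by
  rw [ZMod.intCast_zmod_eq_zero_iff_dvd]
  exact ⟨y, by push_cast; exact h⟩

/-- `-1`, `φ`, `-φ` are not squares modulo `4` -/
theorem no_sq_int (φ : 𝓞 K) (h : φ ^ 2 = φ + 1) (hrep : ∀ a : 𝓞 K, ∃ m n : ℤ, a = m + n * φ)
    (huniq : ∀ m n m' n' : ℤ, (m : 𝓞 K) + n * φ = m' + n' * φ → m = m' ∧ n = n')
    (e : 𝓞 K) (he : e = -1 ∨ e = φ ∨ e = -φ) (a b : 𝓞 K) (hab : (4 : 𝓞 K) ∣ a ^ 2 * e - b ^ 2) :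
    (2 : 𝓞 K) ∣ a ∧ (2 : 𝓞 K) ∣ b := by
  obtain ⟨m, n, rfl⟩ := hrep a
  obtain ⟨p, q, rfl⟩ := hrep b
  obtain ⟨w, hw⟩ := hab
  obtain ⟨r, s, rfl⟩ := hrep w
  have fin : (2 : ZMod 4) * m = 0 ∧ (2 : ZMod 4) * n = 0 ∧ (2 : ZMod 4) * p = 0 ∧
      (2 : ZMod 4) * q = 0 := by
    rcases he with rfl | rfl | rfl
    · have := huniq (-(m ^ 2 + n ^ 2) - (p ^ 2 + q ^ 2)) (-(2 * m * n + n ^ 2) - (2 * p * q + q ^ 2))
        (4 * r) (4 * s) (by
          push_cast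
          linear_combination hw - ((-1 : 𝓞 K) * n ^ 2 - q ^ 2) * h)
      have z1 := zmod_zero_of _ _ this.1
      have z2 := zmod_zero_of _ _ this.2
      push_cast at z1 z2
      exact zmod_neg m n p q z1 z2
    · have := huniq ((2 * m * n + n ^ 2) - (p ^ 2 + q ^ 2))
        ((m ^ 2 + n ^ 2 + (2 * m * n + n ^ 2)) - (2 * p * q + q ^ 2)) (4 * r) (4 * s) (by
          push_cast
          linear_combination hw - ((n : 𝓞 K) ^ 2 * e + n ^ 2 + 2 * m * n - q ^ 2) * h)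
      have z1 := zmod_zero_of _ _ this.1
      have z2 := zmod_zero_of _ _ this.2
      push_cast at z1 z2
      exact zmod_phi m n p q z1 z2
    · have := huniq (-(2 * m * n + n ^ 2) - (p ^ 2 + q ^ 2))
        (-(m ^ 2 + n ^ 2 + (2 * m * n + n ^ 2)) - (2 * p * q + q ^ 2)) (4 * r) (4 * s) (by
          push_cast
          linear_combination hw - (-(n : 𝓞 K) ^ 2 * φ - n ^ 2 - 2 * m * n - q ^ 2) * h)
      have z1 := zmod_zero_of _ _ this.1
      have z2 := zmod_zero_of _ _ this.2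
      push_cast at z1 z2
      exact zmod_nphi m n p q z1 z2
  obtain ⟨f1, f2, f3, f4⟩ := fin
  obtain ⟨k1, hk1⟩ := even_of_zmod m f1
  obtain ⟨k2, hk2⟩ := even_of_zmod n f2
  obtain ⟨k3, hk3⟩ := even_of_zmod p f3
  obtain ⟨k4, hk4⟩ := even_of_zmod q f4
  exact ⟨⟨k1 + k2 * φ, by rw [hk1, hk2]; push_cast; ring⟩,
    ⟨k3 + k4 * φ, by rw [hk3, hk4]; push_cast; ring⟩⟩

theorem no_sq [IsPrincipalIdealRing (𝓞 K)] (φ : 𝓞 K) (h : φ ^ 2 = φ + 1)
    (hrep : ∀ a : 𝓞 K, ∃ m n : ℤ, a = m + n * φ)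
    (huniq : ∀ m n m' n' : ℤ, (m : 𝓞 K) + n * φ = m' + n' * φ → m = m' ∧ n = n')
    (e : 𝓞 K) (he : e = -1 ∨ e = φ ∨ e = -φ) (P : HeightOneSpectrum (𝓞 K))
    (hP : P.asIdeal = Ideal.span {2}) (y : K)
    (hy : P.valuation K (y ^ 2 * e - 1) ≤ P.valuation K 4) : False := by
  obtain ⟨a, b, hab, rfl⟩ := IsFractionRing.exists_reduced_fraction (A := 𝓞 K) y
  have hb0 : ((b : 𝓞 K) : K) ≠ 0 := coe_ne (nonZeroDivisors.coe_ne_zero b)
  rw [IsFractionRing.mk'_eq_div] at hy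
  have e4 : P.valuation K 4 = exp (-2 : ℤ) := by
    rw [show (4 : K) = 2 * 2 by norm_num, map_mul, val_two P hP, ← exp_add]; rfl
  have hb1 : P.valuation K ((b : 𝓞 K) : K) ≤ 1 := P.valuation_le_one _
  have hval : P.valuation K (((a ^ 2 * e - (b : 𝓞 K) ^ 2 : 𝓞 K)) : K) ≤ exp (-2 : ℤ) := by
    have e1 : (((a ^ 2 * e - (b : 𝓞 K) ^ 2 : 𝓞 K)) : K) =
        ((b : 𝓞 K) : K) ^ 2 * (((algebraMap (𝓞 K) K a) / (algebraMap (𝓞 K) K (b : 𝓞 K))) ^ 2 * e - 1) := by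
      have hb0' : algebraMap (𝓞 K) K (b : 𝓞 K) ≠ 0 := hb0
      have e2 : (((a ^ 2 * e - (b : 𝓞 K) ^ 2 : 𝓞 K)) : K) = (algebraMap (𝓞 K) K a) ^ 2 * (e : K) -
          (algebraMap (𝓞 K) K (b : 𝓞 K)) ^ 2 := by
        simp
      rw [e2]
      show _ = (algebraMap (𝓞 K) K (b : 𝓞 K)) ^ 2 * _
      field_simp
    rw [e1, map_mul, ← e4]
    refine (mul_le_of_le_one_left' ?_).trans hy
    rw [map_pow]
    exact pow_le_one' hb1 2
  have hdvd : (4 : 𝓞 K) ∣ a ^ 2 * e - (b : 𝓞 K) ^ 2 := by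
    have h1 : P.intValuation (a ^ 2 * e - (b : 𝓞 K) ^ 2) ≤ exp (-(2 : ℕ) : ℤ) := by
      rw [← P.valuation_of_algebraMap (K := K)]
      exact hval
    rw [HeightOneSpectrum.intValuation_le_pow_iff_mem, hP, Ideal.span_singleton_pow,
      Ideal.mem_span_singleton] at h1
    rw [show (4 : 𝓞 K) = 2 ^ 2 by norm_num]
    exact h1
  obtain ⟨d1, d2⟩ := no_sq_int φ h hrep huniq e he a b hdvd
  have hu := hab d1 d2
  have hpr := P.isPrime.ne_top
  rw [hP] at hpr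
  exact hpr (Ideal.span_singleton_eq_top.2 hu)

theorem glo : S_GLO := by
  intro K _ _ σ τ hG δ hδ hodd htwo
  obtain ⟨φ, h, h2, h3, hrep, huniq⟩ := int_thm K σ τ hG
  obtain ⟨P, hP, -⟩ := Pool.Agent.P8H20.WS.two K σ τ hG
  obtain ⟨s5, hs5⟩ := hG.five
  haveI := Pool.Agent.Y382.Gold.pid hG.rank hs5
  have h4lt : P.valuation K 4 < 1 := by
    have h2lt : P.valuation K 2 < 1 := by
      rw [val_two P hP, ← exp_zero, exp_lt_exp]; omega
    rw [show (4 : K) = 2 * 2 by norm_num]; exact mul_lt_one_left h2lt h2lt.le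
  -- all values of `δ` are even
  have hall : ∀ v : HeightOneSpectrum (𝓞 K), ∃ x : K, x ≠ 0 ∧ v.valuation K (x ^ 2 * δ) = 1 := by
    intro v
    rcases eq_or_lt_of_le (show v.valuation K (2 : K) ≤ 1 by exact_mod_cast nat_le_one 2) with hv | hv
    · exact hodd v hv
    · have hmem : (2 : 𝓞 K) ∈ v.asIdeal := by
        rw [← v.valuation_lt_one_iff_mem (K := K)]
        exact_mod_cast hv
      have hle : P.asIdeal ≤ v.asIdeal := by
        rw [hP, Ideal.span_singleton_le_iff_mem]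
        exact hmem
      have heq : v = P := by
        apply HeightOneSpectrum.ext
        exact (P.isMaximal.eq_of_le v.isPrime.ne_top hle).symm
      rw [heq]
      obtain ⟨y, hy0, hy⟩ := htwo P hP
      refine ⟨y, hy0, ?_⟩
      have e : y ^ 2 * δ = 1 + (y ^ 2 * δ - 1) := by ring
      rw [e, Valuation.map_add_eq_of_lt_left _ (by rw [map_one]; exact hy.trans_lt h4lt), map_one]
  obtain ⟨a, b, hb, hab⟩ := IsFractionRing.div_surjective (A := 𝓞 K) δ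
  have hb0 : b ≠ 0 := nonZeroDivisors.ne_zero hb
  have hbK : algebraMap (𝓞 K) K b ≠ 0 := coe_ne hb0
  have ha0 : a ≠ 0 := by
    rintro rfl
    rw [map_zero, zero_div] at hab
    exact hδ hab.symm
  have hc0 : a * b ≠ 0 := mul_ne_zero ha0 hb0
  have hcδ : ((a * b : 𝓞 K) : K) = δ * (algebraMap (𝓞 K) K b) ^ 2 := by
    rw [← hab]
    have : ((a * b : 𝓞 K) : K) = algebraMap (𝓞 K) K a * algebraMap (𝓞 K) K b := by simp
    rw [this]
    field_simp
  obtain ⟨u, z, hu⟩ := sq_of_even (a * b) hc0 (by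
    intro v
    obtain ⟨x, hx0, hx⟩ := hall v
    refine ⟨x / algebraMap (𝓞 K) K b, div_ne_zero hx0 hbK, ?_⟩
    rw [hcδ]
    have e : (x / (algebraMap (𝓞 K) K) b) ^ 2 * (δ * (algebraMap (𝓞 K) K) b ^ 2) = x ^ 2 * δ := by
      field_simp
    rw [e]
    exact hx)
  have hz0 : z ≠ 0 := by
    rintro rfl
    apply hc0
    rw [hu]; ring
  have hzK : (z : K) ≠ 0 := coe_ne hz0
  have hδu : δ = ((u : 𝓞 K) : K) * ((z : K) / algebraMap (𝓞 K) K b) ^ 2 := by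
    have : ((a * b : 𝓞 K) : K) = ((u : 𝓞 K) : K) * (z : K) ^ 2 := by rw [hu]; simp
    rw [this] at hcδ
    rw [div_pow, mul_div_assoc', hcδ]
    field_simp
  -- the unit
  obtain ⟨k, hk⟩ := unit_rep σ τ hG φ h h2 h3 u
  have hform : ∃ (e : 𝓞 K) (w : (𝓞 K)ˣ), (e = 1 ∨ e = -1 ∨ e = φ ∨ e = -φ) ∧
      (u : 𝓞 K) = e * (w : 𝓞 K) ^ 2 := by
    rcases Int.even_or_odd' k with ⟨j, hj | hj⟩
    · rcases hk with hk | hk
      · refine ⟨1, phiU φ h ^ j, Or.inl rfl, ?_⟩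
        rw [hk, hj, one_mul, ← Units.val_pow_eq_pow_val, ← zpow_natCast, ← zpow_mul]
        congr 2
        push_cast; ring
      · refine ⟨-1, phiU φ h ^ j, Or.inr (Or.inl rfl), ?_⟩
        rw [hk, hj, Units.val_neg, neg_one_mul, ← Units.val_pow_eq_pow_val, ← zpow_natCast,
          ← zpow_mul]
        congr 3
        push_cast; ring
    · have hφ : phiU φ h ^ (2 * j + 1) = phiU φ h * (phiU φ h ^ j) ^ 2 := by
        rw [← zpow_natCast (phiU φ h ^ j), ← zpow_mul, zpow_add, zpow_one, mul_comm]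
        congr 2
        push_cast; ring
      rcases hk with hk | hk
      · refine ⟨φ, phiU φ h ^ j, Or.inr (Or.inr (Or.inl rfl)), ?_⟩
        rw [hk, hj, hφ, Units.val_mul, Units.val_pow_eq_pow_val]
        rfl
      · refine ⟨-φ, phiU φ h ^ j, Or.inr (Or.inr (Or.inr rfl)), ?_⟩
        rw [hk, hj, hφ, Units.val_neg, Units.val_mul, Units.val_pow_eq_pow_val, neg_mul]
        rfl
  obtain ⟨e, w, he, hue⟩ := hform
  have hwK : ((w : 𝓞 K) : K) ≠ 0 := coe_ne w.ne_zero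
  have hg0 : ((w : 𝓞 K) : K) * ((z : K) / algebraMap (𝓞 K) K b) ≠ 0 :=
    mul_ne_zero hwK (div_ne_zero hzK hbK)
  have hδe : δ = (e : K) * (((w : 𝓞 K) : K) * ((z : K) / algebraMap (𝓞 K) K b)) ^ 2 := by
    rw [hδu, hue]
    have : ((e * (w : 𝓞 K) ^ 2 : 𝓞 K) : K) = (e : K) * ((w : 𝓞 K) : K) ^ 2 := by simp
    rw [this]
    ring
  rcases he with he | he
  · refine ⟨_, hg0, ?_⟩
    rw [hδe, he]
    simp
  · exfalso
    obtain ⟨y, hy0, hy⟩ := htwo P hP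
    refine no_sq φ h hrep huniq e he P hP
      (y * (((w : 𝓞 K) : K) * ((z : K) / algebraMap (𝓞 K) K b))) ?_
    have : (y * (((w : 𝓞 K) : K) * ((z : K) / algebraMap (𝓞 K) K b))) ^ 2 * (e : K) = y ^ 2 * δ := by
      rw [hδe]; ring
    rw [this]
    exact hy

end Pool.Agent.P8H71.WS.GLO
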