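import Pool.Agent.P8H71.WS.Ord

/-!
# WS/LOC: the twist class is locally a square
-/

set_option autoImplicit false

namespace Pool.Agent.P8H71.WS.LOC

open NumberField IsDedekindDomain WithZero
open Pool.Agent.P8H82.WS
open Pool.Agent.P8H71.WS.ORD

variable {K : Type} [Field K] [NumberField K]

theorem ueq_of_pow {a b : ℤᵐ⁰} {n : ℕ} (hn : n ≠ 0) (h : a ^ n = b ^ n) : a = b :=
  (pow_left_inj₀ zero_le zero_le hn).1 h

theorem vc4_le (v : HeightOneSpectrum (𝓞 K)) (W : WeierstrassCurve K) (h : IntAt v W) :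
    v.valuation K W.b₂ ≤ 1 ∧ v.valuation K W.b₄ ≤ 1 ∧ v.valuation K W.b₆ ≤ 1 ∧
    v.valuation K W.c₄ ≤ 1 ∧ v.valuation K W.Δ ≤ 1 := by
  obtain ⟨h1, h2, h3, h4, h6⟩ := h
  have n2 : v.valuation K (2 : K) ≤ 1 := by exact_mod_cast nat_le_one 2
  have n4 : v.valuation K (4 : K) ≤ 1 := by exact_mod_cast nat_le_one 4
  have hb2 : v.valuation K W.b₂ ≤ 1 := by
    unfold WeierstrassCurve.b₂
    exact add_le_one (pow_le_one'' h1 2) (vmul_le n4 h2)
  have hb4 : v.valuation K W.b₄ ≤ 1 := by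
    unfold WeierstrassCurve.b₄
    exact add_le_one (vmul_le n2 h4) (vmul_le h1 h3)
  have hb6 : v.valuation K W.b₆ ≤ 1 := by
    unfold WeierstrassCurve.b₆
    exact add_le_one (pow_le_one'' h3 2) (vmul_le n4 h6)
  have hb8 : v.valuation K W.b₈ ≤ 1 := by
    unfold WeierstrassCurve.b₈
    exact sub_le_one (add_le_one (sub_le_one (add_le_one (vmul_le (pow_le_one'' h1 2) h6)
      (vmul_le (vmul_le n4 h2) h6)) (vmul_le (vmul_le h1 h3) h4))
      (vmul_le h2 (pow_le_one'' h3 2))) (pow_le_one'' h4 2)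
  have hc4 : v.valuation K W.c₄ ≤ 1 := by
    unfold WeierstrassCurve.c₄
    exact sub_le_one (pow_le_one'' hb2 2) (vmul_le (by exact_mod_cast nat_le_one 24) hb4)
  refine ⟨hb2, hb4, hb6, hc4, ?_⟩
  unfold WeierstrassCurve.Δ
  refine add_le_one (sub_le_one (sub_le_one ?_ ?_) ?_) ?_
  · refine vmul_le ?_ hb8
    rw [Valuation.map_neg]
    exact pow_le_one'' hb2 2
  · exact vmul_le (by exact_mod_cast nat_le_one 8) (pow_le_one'' hb4 3)
  · exact vmul_le (by exact_mod_cast nat_le_one 27) (pow_le_one'' hb6 2)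
  · exact vmul_le (vmul_le (vmul_le (by exact_mod_cast nat_le_one 9) hb2) hb4) hb6

/-- the values: `U`, `V` of the scalings, `D` of the twist, `p` of `c₄`, `q` of `Δ` -/
theorem vals_aux (U V D p q : ℤᵐ⁰)
    (h1 : q = U ^ 12 ∨ p = U ^ 4) (hp : p ≤ U ^ 4) (hq : q ≤ U ^ 12)
    (h2 : D ^ 6 * q = V ^ 12 ∨ D ^ 2 * p = V ^ 4) (hp' : D ^ 2 * p ≤ V ^ 4)
    (hq' : D ^ 6 * q ≤ V ^ 12) : D * U ^ 2 = V ^ 2 := by
  rcases h1 with h1 | h1 <;> rcases h2 with h2 | h2
  · apply ueq_of_pow (n := 6) (by norm_num)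
    rw [mul_pow, ← pow_mul, ← pow_mul, ← h1, h2]
  · -- `p ^ 3 ≤ U ^ 12 = q`
    have e : D ^ 6 * U ^ 12 = V ^ 12 := by
      refine le_antisymm (by rw [← h1]; exact hq') ?_
      calc V ^ 12 = (D ^ 2 * p) ^ 3 := by rw [h2, ← pow_mul]
        _ = D ^ 6 * p ^ 3 := by rw [mul_pow, ← pow_mul]
        _ ≤ D ^ 6 * (U ^ 4) ^ 3 := mul_le_mul_right (pow_le_pow_left' hp 3) _
        _ = D ^ 6 * U ^ 12 := by rw [← pow_mul]
    apply ueq_of_pow (n := 6) (by norm_num)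
    rw [mul_pow, ← pow_mul, ← pow_mul, e]
  · have e : D ^ 6 * U ^ 12 = V ^ 12 := by
      refine le_antisymm ?_ ?_
      · calc D ^ 6 * U ^ 12 = (D ^ 2 * p) ^ 3 := by rw [h1, mul_pow, ← pow_mul, ← pow_mul]
          _ ≤ (V ^ 4) ^ 3 := pow_le_pow_left' hp' 3
          _ = V ^ 12 := by rw [← pow_mul]
      · calc V ^ 12 = D ^ 6 * q := h2.symm
          _ ≤ D ^ 6 * U ^ 12 := mul_le_mul_right hq _
    apply ueq_of_pow (n := 6) (by norm_num)
    rw [mul_pow, ← pow_mul, ← pow_mul, e]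
  · apply ueq_of_pow (n := 2) (by norm_num)
    rw [mul_pow, ← pow_mul, ← pow_mul, ← h1, h2]

/-- the main identity of values -/
theorem val_twist (v : HeightOneSpectrum (𝓞 K)) (E E' : WeierstrassCurve K) (δ : K) (hδ : δ ≠ 0)
    (C C' : WeierstrassCurve.VariableChange K) (hC : IntAt v (C • E)) (hC' : IntAt v (C' • E'))
    (h : v.valuation K (C • E).Δ = 1 ∨ v.valuation K (C • E).c₄ = 1)
    (h' : v.valuation K (C' • E').Δ = 1 ∨ v.valuation K (C' • E').c₄ = 1)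
    (hc4 : E'.c₄ = δ ^ 2 * E.c₄) (hΔ : E'.Δ = δ ^ 6 * E.Δ) :
    v.valuation K (((C.u : K) * (C'.u⁻¹ : Kˣ)) ^ 2 * δ) = 1 := by
  obtain ⟨-, -, -, k1, k2⟩ := vc4_le v _ hC
  obtain ⟨-, -, -, k3, k4⟩ := vc4_le v _ hC'
  rw [WeierstrassCurve.variableChange_c₄] at k1 k3
  rw [WeierstrassCurve.variableChange_Δ] at k2 k4
  rw [WeierstrassCurve.variableChange_c₄, WeierstrassCurve.variableChange_Δ] at h h'
  rw [hc4, hΔ] at h'
  rw [hc4] at k3
  rw [hΔ] at k4
  simp only [Units.val_inv_eq_inv_val, map_mul, map_pow, map_inv₀] at *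
  have hU : v.valuation K (C.u : K) ≠ 0 := (Valuation.ne_zero_iff _).2 C.u.ne_zero
  have hV : v.valuation K (C'.u : K) ≠ 0 := (Valuation.ne_zero_iff _).2 C'.u.ne_zero
  generalize v.valuation K (C.u : K) = U at *
  generalize v.valuation K (C'.u : K) = V at *
  generalize v.valuation K δ = D at *
  generalize v.valuation K E.c₄ = p at *
  generalize v.valuation K E.Δ = q at *
  have key := vals_aux U V D p q ?_ ?_ ?_ ?_ ?_ ?_
  · rw [mul_pow, inv_pow, mul_comm (U ^ 2), mul_assoc, mul_comm (U ^ 2), key,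
      inv_mul_cancel₀ (pow_ne_zero _ hV)]
  · rcases h with h | h
    · left
      rw [inv_pow, inv_mul_eq_one₀ (pow_ne_zero _ hU)] at h
      exact h.symm
    · right
      rw [inv_pow, inv_mul_eq_one₀ (pow_ne_zero _ hU)] at h
      exact h.symm
  · rw [inv_pow, inv_mul_le_one₀ (zero_lt_iff.2 (pow_ne_zero _ hU))] at k1
    exact k1
  · rw [inv_pow, inv_mul_le_one₀ (zero_lt_iff.2 (pow_ne_zero _ hU))] at k2
    exact k2
  · rcases h' with h | h
    · left
      rw [inv_pow, inv_mul_eq_one₀ (pow_ne_zero _ hV)] at h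
      exact h.symm
    · right
      rw [inv_pow, inv_mul_eq_one₀ (pow_ne_zero _ hV)] at h
      exact h.symm
  · rw [inv_pow, inv_mul_le_one₀ (zero_lt_iff.2 (pow_ne_zero _ hV))] at k3
    exact k3
  · rw [inv_pow, inv_mul_le_one₀ (zero_lt_iff.2 (pow_ne_zero _ hV))] at k4
    exact k4

/-- `- c₆ / c₄ ≡ a₁²` modulo `4` -/
theorem six_four (v : HeightOneSpectrum (𝓞 K)) (hv : v.asIdeal = Ideal.span {2})
    (W : WeierstrassCurve K) (h : IntAt v W) (hc : v.valuation K W.c₄ = 1) :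
    v.valuation K W.a₁ = 1 ∧ ∃ s : K, v.valuation K s ≤ 1 ∧ -W.c₆ / W.c₄ = W.a₁ ^ 2 + 4 * s := by
  obtain ⟨hb2, hb4, hb6, -, -⟩ := vc4_le v W h
  obtain ⟨h1, h2, h3, h4, h6⟩ := h
  have h2e : v.valuation K 2 = exp (-1 : ℤ) := val_two v hv
  have h2lt : v.valuation K 2 < 1 := by rw [h2e, ← exp_zero, exp_lt_exp]; omega
  have n4 : v.valuation K 4 < 1 := by
    rw [show (4 : K) = 2 * 2 by norm_num]; exact mul_lt_one_left h2lt h2lt.le
  have n24 : v.valuation K (24 : K) < 1 := by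
    rw [show (24 : K) = 2 * 12 by norm_num]
    exact mul_lt_one_left h2lt (by exact_mod_cast nat_le_one 12)
  have hc0 : W.c₄ ≠ 0 := by
    intro h0
    rw [h0, map_zero] at hc
    exact zero_ne_one hc
  constructor
  · refine le_antisymm h1 ?_
    by_contra hlt
    rw [not_le] at hlt
    have hb2' : v.valuation K W.b₂ < 1 := by
      unfold WeierstrassCurve.b₂
      refine add_lt_one ?_ (mul_lt_one_left n4 h2)
      rw [map_pow]
      exact pow_lt_one' hlt two_ne_zero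
    have : v.valuation K W.c₄ < 1 := by
      unfold WeierstrassCurve.c₄
      refine sub_lt_one ?_ (mul_lt_one_left n24 hb4)
      rw [map_pow]
      exact pow_lt_one' hb2' two_ne_zero
    rw [hc] at this
    exact lt_irrefl _ this
  · refine ⟨W.a₂ + (-3 * W.b₂ * W.b₄ + 54 * W.b₆) / W.c₄, ?_, ?_⟩
    · refine add_le_one h2 ?_
      rw [map_div₀, hc, div_one]
      refine add_le_one (vmul_le (vmul_le ?_ hb2) hb4) (vmul_le (by exact_mod_cast nat_le_one 54) hb6)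
      rw [Valuation.map_neg]
      exact_mod_cast nat_le_one 3
    · rw [div_eq_iff hc0]
      have e := div_mul_cancel₀ (-3 * W.b₂ * W.b₄ + 54 * W.b₆) hc0
      have e3 : (W.a₁ ^ 2 + 4 * (W.a₂ + (-3 * W.b₂ * W.b₄ + 54 * W.b₆) / W.c₄)) * W.c₄ =
          (W.a₁ ^ 2 + 4 * W.a₂) * W.c₄ +
            4 * ((-3 * W.b₂ * W.b₄ + 54 * W.b₆) / W.c₄ * W.c₄) := by ring
      rw [e3, e]
      unfold WeierstrassCurve.c₆ WeierstrassCurve.c₄
      have e2 : W.a₁ ^ 2 = W.b₂ - 4 * W.a₂ := by unfold WeierstrassCurve.b₂; ring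
      rw [e2]
      ring

theorem loc : S_LOC := by
  intro K _ _ v E E' δ hE hδ hs hs' hr hr' hc4 hc6 hΔ
  have hE' : E'.Δ ≠ 0 := by
    rw [hΔ]
    exact mul_ne_zero (pow_ne_zero _ hδ) hE
  constructor
  · intro _
    obtain ⟨C, hC, h⟩ := hs
    obtain ⟨C', hC', h'⟩ := hs'
    exact ⟨(C.u : K) * (C'.u⁻¹ : Kˣ), mul_ne_zero C.u.ne_zero (C'.u⁻¹).ne_zero,
      val_twist v E E' δ hδ C C' hC hC' h h' hc4 hΔ⟩
  · intro hv
    obtain ⟨C, hC, h⟩ := ord K v hv E hE hr hs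
    obtain ⟨C', hC', h'⟩ := ord K v hv E' hE' hr' hs'
    obtain ⟨ha, s, hs1, hs2⟩ := six_four v hv _ hC h
    obtain ⟨ha', s', hs1', hs2'⟩ := six_four v hv _ hC' h'
    have hva0 : (C • E).a₁ ≠ 0 := by
      intro h0; rw [h0, map_zero] at ha; exact zero_ne_one ha
    have hva0' : (C' • E').a₁ ≠ 0 := by
      intro h0; rw [h0, map_zero] at ha'; exact zero_ne_one ha'
    have hc0 : (C • E).c₄ ≠ 0 := by
      intro h0; rw [h0, map_zero] at h; exact zero_ne_one h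
    have hc0' : (C' • E').c₄ ≠ 0 := by
      intro h0; rw [h0, map_zero] at h'; exact zero_ne_one h'
    -- the quotient
    have hu : (C.u : K) ≠ 0 := C.u.ne_zero
    have hu' : (C'.u : K) ≠ 0 := C'.u.ne_zero
    have hq : ((C.u : K) * (C'.u⁻¹ : Kˣ)) ^ 2 * δ * (-(C • E).c₆ / (C • E).c₄) =
        -(C' • E').c₆ / (C' • E').c₄ := by
      rw [WeierstrassCurve.variableChange_c₄] at hc0 hc0'
      rw [WeierstrassCurve.variableChange_c₄, WeierstrassCurve.variableChange_c₄,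
        WeierstrassCurve.variableChange_c₆, WeierstrassCurve.variableChange_c₆, hc4, hc6]
      have hE4 : E.c₄ ≠ 0 := right_ne_zero_of_mul hc0
      simp only [Units.val_inv_eq_inv_val]
      field_simp
    rw [hs2, hs2'] at hq
    -- values
    have h2e : v.valuation K 2 = exp (-1 : ℤ) := val_two v hv
    have h2lt : v.valuation K 2 < 1 := by rw [h2e, ← exp_zero, exp_lt_exp]; omega
    have n4 : v.valuation K 4 < 1 := by
      rw [show (4 : K) = 2 * 2 by norm_num]; exact mul_lt_one_left h2lt h2lt.le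
    have hden : v.valuation K ((C • E).a₁ ^ 2 + 4 * s) = 1 := by
      rw [Valuation.map_add_eq_of_lt_left _ (x := (C • E).a₁ ^ 2), map_pow, ha, one_pow]
      rw [map_pow, ha, one_pow]
      exact mul_lt_one_left n4 hs1
    have hden0 : (C • E).a₁ ^ 2 + 4 * s ≠ 0 := by
      intro h0; rw [h0, map_zero] at hden; exact zero_ne_one hden
    refine ⟨(C.u : K) * (C'.u⁻¹ : Kˣ) * ((C • E).a₁ / (C' • E').a₁),
      mul_ne_zero (mul_ne_zero C.u.ne_zero (C'.u⁻¹).ne_zero) (div_ne_zero hva0 hva0'), ?_⟩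
    have e1 : ((C.u : K) * (C'.u⁻¹ : Kˣ) * ((C • E).a₁ / (C' • E').a₁)) ^ 2 * δ - 1 =
        4 * (((C • E).a₁ ^ 2 * s' - (C' • E').a₁ ^ 2 * s) /
          ((C' • E').a₁ ^ 2 * ((C • E).a₁ ^ 2 + 4 * s))) := by
      have e2 : ((C.u : K) * (C'.u⁻¹ : Kˣ)) ^ 2 * δ =
          ((C' • E').a₁ ^ 2 + 4 * s') / ((C • E).a₁ ^ 2 + 4 * s) := by
        rw [eq_div_iff hden0, hq]
      rw [mul_pow, mul_right_comm, e2]
      field_simp
      ring
    rw [e1, map_mul]
    apply mul_le_of_le_one_right'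
    rw [map_div₀, map_mul, hden, map_pow, ha', one_pow, one_mul, div_one]
    exact sub_le_one (vmul_le (pow_le_one'' ha.le 2) hs1') (vmul_le (pow_le_one'' ha'.le 2) hs1)

end Pool.Agent.P8H71.WS.LOC
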