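import Pool.Agent.P8H82.WS.Stm2
import Pool.Agent.P8H52.JG.Gold

/-!
# WS/UNI: the units of `ℤ[φ]` fill the units modulo `4`
-/

set_option autoImplicit false

namespace Pool.Agent.P8H71.WS.UNI

open NumberField IsDedekindDomain
open Pool.Agent.P8H82.WS
open Pool.Agent.P8H82.JG (Gold Triple)

variable {K : Type} [Field K] [NumberField K]

/-- the unit `φ` -/
def phiU (φ : 𝓞 K) (h : φ ^ 2 = φ + 1) : (𝓞 K)ˣ :=
  ⟨φ, φ - 1, by linear_combination h, by linear_combination h⟩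

theorem phi_pows (φ : 𝓞 K) (h : φ ^ 2 = φ + 1) : φ ^ 3 = 2 * φ + 1 ∧ φ ^ 4 = 3 * φ + 2 ∧
    φ ^ 5 = 5 * φ + 3 ∧ φ ^ 6 = 8 * φ + 5 := by
  refine ⟨by linear_combination (φ + 1) * h, by linear_combination (φ ^ 2 + φ + 2) * h,
    by linear_combination (φ ^ 3 + φ ^ 2 + 2 * φ + 3) * h,
    by linear_combination (φ ^ 4 + φ ^ 3 + 2 * φ ^ 2 + 3 * φ + 5) * h⟩

theorem unit_of (φ : 𝓞 K) (h : φ ^ 2 = φ + 1) (a : 𝓞 K) (j i : ℕ) (hij : i + j = 6)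
    (ha : (4 : 𝓞 K) ∣ a - φ ^ j ∨ (4 : 𝓞 K) ∣ a + φ ^ j) :
    ∃ u : (𝓞 K)ˣ, (4 : 𝓞 K) ∣ u * a + 1 := by
  have h6 := (phi_pows φ h).2.2.2
  have hij' : φ ^ i * φ ^ j = 8 * φ + 5 := by rw [← pow_add, hij, h6]
  have hval : (((phiU φ h) ^ i : (𝓞 K)ˣ) : 𝓞 K) = φ ^ i := by
    rw [Units.val_pow_eq_pow_val]; rfl
  rcases ha with ⟨w, hw⟩ | ⟨w, hw⟩
  · refine ⟨-(phiU φ h) ^ i, ?_⟩
    refine ⟨-(2 * φ + 1) - φ ^ i * w, ?_⟩
    rw [Units.val_neg, hval]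
    have ha' : a = φ ^ j + 4 * w := by linear_combination hw
    rw [ha']
    linear_combination -hij'
  · refine ⟨(phiU φ h) ^ i, ?_⟩
    refine ⟨-(2 * φ + 1) + φ ^ i * w, ?_⟩
    rw [hval]
    have ha' : a = -φ ^ j + 4 * w := by linear_combination hw
    rw [ha']
    linear_combination -hij'

theorem uni : S_UNI := by
  intro K _ _ σ τ hG a ha
  obtain ⟨φ, h, -, -, hrep, -⟩ := Pool.Agent.P8H52.JG.int_thm K σ τ hG
  obtain ⟨h3, h4, h5, h6⟩ := phi_pows φ h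
  obtain ⟨m, n, rfl⟩ := hrep a
  have hm : m = 4 * (m / 4) + m % 4 := (Int.mul_ediv_add_emod m 4).symm
  have hn : n = 4 * (n / 4) + n % 4 := (Int.mul_ediv_add_emod n 4).symm
  have hnot : ¬ (m % 2 = 0 ∧ n % 2 = 0) := by
    rintro ⟨e1, e2⟩
    apply ha
    obtain ⟨p, hp⟩ := Int.dvd_of_emod_eq_zero e1
    obtain ⟨q, hq⟩ := Int.dvd_of_emod_eq_zero e2
    exact ⟨p + q * φ, by rw [hp, hq]; push_cast; ring⟩
  have key : ∀ (r s : ℤ) (j i : ℕ) (e : 𝓞 K), i + j = 6 → m % 4 = r → n % 4 = s →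
      ((r : 𝓞 K) + s * φ - φ ^ j = 4 * e ∨ (r : 𝓞 K) + s * φ + φ ^ j = 4 * e) →
      ∃ u : (𝓞 K)ˣ, (4 : 𝓞 K) ∣ u * ((m : 𝓞 K) + n * φ) + 1 := by
    intro r s j i e hij hr hs he
    rw [hr] at hm
    rw [hs] at hn
    apply unit_of φ h _ j i hij
    have hmm : ((m : ℤ) : 𝓞 K) = 4 * ((m / 4 : ℤ) : 𝓞 K) + (r : 𝓞 K) := by
      rw [hm]; push_cast
      congr 2
      have : (4 * (m / 4) + r) / 4 = m / 4 := by omega
      rw [this]
    have hnn : ((n : ℤ) : 𝓞 K) = 4 * ((n / 4 : ℤ) : 𝓞 K) + (s : 𝓞 K) := by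
      rw [hn]; push_cast
      congr 2
      have : (4 * (n / 4) + s) / 4 = n / 4 := by omega
      rw [this]
    rcases he with he | he
    · left
      refine ⟨((m / 4 : ℤ) : 𝓞 K) + ((n / 4 : ℤ) : 𝓞 K) * φ + e, ?_⟩
      rw [hmm, hnn]
      linear_combination he
    · right
      refine ⟨((m / 4 : ℤ) : 𝓞 K) + ((n / 4 : ℤ) : 𝓞 K) * φ + e, ?_⟩
      rw [hmm, hnn]
      linear_combination he
  have c1 : m % 4 = 0 ∨ m % 4 = 1 ∨ m % 4 = 2 ∨ m % 4 = 3 := by omega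
  have c2 : n % 4 = 0 ∨ n % 4 = 1 ∨ n % 4 = 2 ∨ n % 4 = 3 := by omega
  rcases c1 with c1 | c1 | c1 | c1 <;> rcases c2 with c2 | c2 | c2 | c2
  · exact absurd ⟨by omega, by omega⟩ hnot
  · exact key 0 1 1 5 0 rfl c1 c2 (Or.inl (by push_cast; ring))
  · exact absurd ⟨by omega, by omega⟩ hnot
  · exact key 0 3 1 5 φ rfl c1 c2 (Or.inr (by push_cast; ring))
  · exact key 1 0 0 6 0 rfl c1 c2 (Or.inl (by push_cast; ring))
  · exact key 1 1 2 4 0 rfl c1 c2 (Or.inl (by push_cast; linear_combination -h))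
  · exact key 1 2 3 3 0 rfl c1 c2 (Or.inl (by push_cast; linear_combination -h3))
  · exact key 1 3 5 1 (1 + 2 * φ) rfl c1 c2 (Or.inr (by push_cast; linear_combination h5))
  · exact absurd ⟨by omega, by omega⟩ hnot
  · exact key 2 1 4 2 (1 + φ) rfl c1 c2 (Or.inr (by push_cast; linear_combination h4))
  · exact absurd ⟨by omega, by omega⟩ hnot
  · exact key 2 3 4 2 0 rfl c1 c2 (Or.inl (by push_cast; linear_combination -h4))
  · exact key 3 0 0 6 1 rfl c1 c2 (Or.inr (by push_cast; ring))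
  · exact key 3 1 5 1 (-φ) rfl c1 c2 (Or.inl (by push_cast; linear_combination -h5))
  · exact key 3 2 3 3 (1 + φ) rfl c1 c2 (Or.inr (by push_cast; linear_combination h3))
  · exact key 3 3 2 4 (1 + φ) rfl c1 c2 (Or.inr (by push_cast; linear_combination h))

end Pool.Agent.P8H71.WS.UNI
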